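import Pool.Agent.BXS.Stmts

/-!
# Squad BXS (MP_be01ff_an), row BFR: topology of the box
-/

set_option autoImplicit false

namespace Pool.Agent.BXS.H42

open Set Filter Topology MeasureTheory
open Pool.Agent.BE01F Pool.Agent.BEC

/-- row BFR -/
theorem bfr : BfrStmt := by
  intro N l hl
  have hc : ∀ i, Continuous fun x : E N => x i := fun i => by fun_prop
  have hsub : Bx l ⊆ Bc l := fun x hx i => ⟨(hx i).1.le, (hx i).2.le⟩
  have hopen : IsOpen (Bx l) := by
    have e : Bx l = ⋂ i, {x : E N | 0 < x i ∧ x i < l i} := by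
      ext x
      simp [Bx]
    rw [e]
    refine isOpen_iInter_of_finite fun i => ?_
    exact (isOpen_lt continuous_const (hc i)).inter (isOpen_lt (hc i) continuous_const)
  have hclosed : IsClosed (Bc l) := by
    have e : Bc l = ⋂ i, {x : E N | 0 ≤ x i ∧ x i ≤ l i} := by
      ext x
      simp [Bc]
    rw [e]
    refine isClosed_iInter fun i => ?_
    exact (isClosed_le continuous_const (hc i)).inter (isClosed_le (hc i) continuous_const)
  refine ⟨hopen, ?_, closure_minimal hsub hclosed, ?_⟩
  · refine (Metric.isBounded_closedBall (x := (0 : E N)) (r := Real.sqrt (∑ i, l i ^ 2))).subset ?_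
    intro x hx
    rw [mem_closedBall_zero_iff]
    refine Real.le_sqrt_of_sq_le ?_
    rw [EuclideanSpace.norm_sq_eq]
    refine Finset.sum_le_sum fun i _ => ?_
    rw [Real.norm_eq_abs, sq_abs]
    have h1 := hx i
    nlinarith [h1.1, h1.2]
  · intro x hx
    have hB : Pool.Agent.BOX.Box l = Set.pi Set.univ fun i => Set.Ioo 0 (l i) := by
      ext y
      simp [Pool.Agent.BOX.Box]
    have hop : IsOpen (Pool.Agent.BOX.Box l) := by
      rw [hB]
      exact isOpen_set_pi Set.finite_univ fun i _ => isOpen_Ioo
    rw [hop.frontier_eq]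
    refine ⟨?_, ?_⟩
    · rw [hB, closure_pi_set]
      intro i _
      show (WithLp.ofLp x) i ∈ closure (Set.Ioo 0 (l i))
      rw [closure_Ioo (hl i).ne]
      exact hx.1 i
    · intro h
      obtain ⟨i, hi⟩ := hx.2
      have h1 := h i
      rcases hi with h2 | h2
      · exact absurd h1.1 (by rw [show (WithLp.ofLp x) i = x i from rfl, h2]; exact lt_irrefl _)
      · exact absurd h1.2 (by rw [show (WithLp.ofLp x) i = x i from rfl, h2]; exact lt_irrefl _)

end Pool.Agent.BXS.H42
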